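import Pool.Agent.Helper25.CP.LA
import Pool.Agent.Helper25.CP.L1
import Pool.Agent.Helper4.PC.St.R1
import Pool.Agent.Helper4.CP.P1M

/-!
The local lemma for large target sets (MP_cab741_co).
-/

namespace Pool.Agent.Helper4.CP

open Finset Pool.Agent.Helper4.PC Pool.Agent.Helper25.CP

/-- local lemma, large target sets -/
theorem local_large (A k CJ : ℕ) (hA : 1 ≤ A) (hk : 1 ≤ k) : ∃ d0 : ℕ, ∀ (V C : Type) [Fintype V]
    [DecidableEq V] [DecidableEq C] (N M : V → Finset V) (L : V → Finset C) (B : Set V)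
    (F : Finset (V → Option C)) (v : V) (D : ℕ), Gr N → Clo N L B F →
    (∀ x, #(N x) + 1 ≤ #(L x)) → d0 ≤ #(M v) → #(M v) ≤ D → D ≤ #(M v) ^ 8 →
    (∀ u ∈ M v, #(N u) ≤ D) →
    (∀ u ∈ M v, 2 * D + k * #(M v) ≤ 2 * k * #(L u) ∨ D + A * #(N u) ≤ A * #(L u)) →
    (∀ u ∈ M v, D ≤ A * #(L u)) → (∀ u ∈ M v, ∀ w ∈ N u, D ≤ A * #(L w)) →
    (∀ u ∈ M v, u ∈ B) → (∀ u ∈ M v, ∀ w ∈ N u, w ∈ B) →
    (∀ u ∈ M v, ∀ w ∈ N u, ∀ y ∈ N w, y ∈ B) →
    #(F.filter fun φ => #(Uq M φ v) ≤ #(Bl M φ v) + CJ * Nat.sqrt #(M v)) * D ^ 6 ≤ #F := by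
  obtain ⟨κ, hκ⟩ : ∃ κ, κ = k * A := ⟨_, rfl⟩
  have hkκ : k ≤ κ := by rw [hκ]; exact Nat.le_mul_of_pos_right k (by omega)
  have hAκ : A ≤ κ := by rw [hκ]; exact Nat.le_mul_of_pos_left A (by omega)
  have hκ1 : 1 ≤ κ := hk.trans hkκ
  obtain ⟨S, hS⟩ : ∃ S, S = 64 * κ * CJ := ⟨_, rfl⟩
  obtain ⟨d0, hd0⟩ := paramsM κ S hκ1
  refine ⟨max d0 1, ?_⟩
  intro V C _ _ _ N M L B F v D hG hF hL hdv hvD hD8 hND hu hA1 hA2 hB1 hB2 hB3
  have hd1 : 1 ≤ #(M v) := (le_max_right _ _).trans hdv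
  obtain ⟨r, b1, zmax, i, m, K, t1, t2, q, h, R1, R3, h3, p1, p2, p3, e2, e3, e4, e5, e6, e6', e7,
    e8, e9, e10, e11, e12, e13, e14, e15⟩ := hd0 #(M v) D ((le_max_left _ _).trans hdv) hvD hD8
  have hDpos : 0 < D := by omega
  have h8r : ∀ n : ℕ, D ≤ A * n → 8 * r ^ 2 ≤ n := by
    intro n hn
    have h1 : κ * (8 * r ^ 2) ≤ κ * n := by
      calc κ * (8 * r ^ 2) ≤ 32 * κ * r ^ 2 := by nlinarith [Nat.zero_le (κ * r ^ 2)]
        _ ≤ D := p1.trans hvD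
        _ ≤ A * n := hn
        _ ≤ κ * n := Nat.mul_le_mul_right _ hAκ
    exact Nat.le_of_mul_le_mul_left h1 (by omega)
  have hh : ∀ u ∈ M v, #(N u) + t1 < #(L u) ∨
      2 * h + 4 * t1 + #(M v) + zmax + 1 ≤ 2 * #(L u) := by
    intro u hu'
    rcases hu u hu' with h1 | h1
    · right
      have h0 : (2 * h + 4 * t1 + zmax + 1) * k ≤ 2 * D := (Nat.mul_le_mul_left _ hkκ).trans e6
      have h2 : k * (2 * h + 4 * t1 + #(M v) + zmax + 1) ≤ k * (2 * #(L u)) := by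
        nlinarith
      exact Nat.le_of_mul_le_mul_left h2 (by omega)
    · left
      have h0 : (t1 + 1) * A ≤ D := ((Nat.mul_le_mul_left _ hAκ).trans e6').trans hvD
      have h2 : A * (#(N u) + t1 + 1) ≤ A * #(L u) := by nlinarith
      exact Nat.le_of_mul_le_mul_left h2 (by omega)
  -- the surplus
  have hsq : CJ * Nat.sqrt #(M v) ≤ S * r := by
    have h1 : Nat.sqrt #(M v) ≤ 64 * κ * r := by
      rw [← Nat.lt_succ_iff, Nat.sqrt_lt']
      calc #(M v) < 32 * κ * (r + 1) ^ 2 := p2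
        _ ≤ (64 * κ * r) ^ 2 := by
          have h4 : (r + 1) ^ 2 ≤ (2 * r) ^ 2 := Nat.pow_le_pow_left (by omega) 2
          have h5 : κ ≤ κ ^ 2 := Nat.le_self_pow (by norm_num) κ
          calc 32 * κ * (r + 1) ^ 2 ≤ 32 * κ ^ 2 * (2 * r) ^ 2 :=
                Nat.mul_le_mul (Nat.mul_le_mul_left _ h5) h4
            _ = 128 * (κ ^ 2 * r ^ 2) := by ring
            _ ≤ 4096 * (κ ^ 2 * r ^ 2) := Nat.mul_le_mul_right _ (by norm_num)
            _ = (64 * κ * r) ^ 2 := by ring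
        _ ≤ (64 * κ * r).succ ^ 2 := Nat.pow_le_pow_left (Nat.le_succ _) 2
    calc CJ * Nat.sqrt #(M v) ≤ CJ * (64 * κ * r) := Nat.mul_le_mul_left _ h1
      _ = S * r := by rw [hS]; ring
  set E : ℝ := (#(F.filter fun φ => ¬ Nice N M L r (2 * b1) v φ) : ℝ) with hE
  set Q : ℕ → ℝ := fun z =>
    (#(F.filter fun φ => Nice N M L r (2 * b1) v φ ∧ #(Uq M φ v) = z) : ℝ) with hQ
  have hlev : ∀ z, z ≤ zmax → ∀ X, (∀ z', z < z' → z' ≤ z + q → Q z' ≤ X) →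
      Q z ≤ 3 / 4 * X + E / 2 := by
    intro z hz X hX
    exact level hG hF v hB1 hB2 r (2 * b1) zmax m K t1 t2 q h D R1 R3 h3 (fun u _ => hL u)
      hND hh e3 e4 e5 hDpos (by omega) e7 e8 e9 e10 e11 e12 e13 z hz X hX
  have hrec := rec_bound Q #F E q zmax (fun z => by
    simp only [hQ]; exact_mod_cast card_filter_le _ _) (by positivity) hlev
  -- bound of the bad set
  have hbad : (#(F.filter fun φ => #(Uq M φ v) ≤ #(Bl M φ v) + CJ * Nat.sqrt #(M v)) : ℝ) ≤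
      E + ∑ z ∈ range (2 * b1 + S * r), Q z := by
    have hsub : (F.filter fun φ => #(Uq M φ v) ≤ #(Bl M φ v) + CJ * Nat.sqrt #(M v)) ⊆
        (F.filter fun φ => ¬ Nice N M L r (2 * b1) v φ) ∪
          (range (2 * b1 + S * r)).biUnion fun z =>
            F.filter fun φ => Nice N M L r (2 * b1) v φ ∧ #(Uq M φ v) = z := by
      intro φ hφ
      rw [mem_filter] at hφ
      rw [mem_union, mem_biUnion]
      by_cases hn : Nice N M L r (2 * b1) v φ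
      · right
        refine ⟨#(Uq M φ v), mem_range.mpr ?_, mem_filter.mpr ⟨hφ.1, hn, rfl⟩⟩
        have := hn.2
        omega
      · left
        exact mem_filter.mpr ⟨hφ.1, hn⟩
    have h1 := (card_le_card hsub).trans ((card_union_le _ _).trans
      (Nat.add_le_add_left card_biUnion_le _))
    simp only [hE, hQ]
    exact_mod_cast h1
  have hsum : ∑ z ∈ range (2 * b1 + S * r), Q z ≤
      (2 * b1 + S * r) * ((3 / 4) ^ i * #F + 2 * E) := by
    calc ∑ z ∈ range (2 * b1 + S * r), Q z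
        ≤ ∑ _z ∈ range (2 * b1 + S * r), ((3 / 4) ^ i * (#F : ℝ) + 2 * E) := by
          refine sum_le_sum fun z hz => hrec i z ?_
          rw [mem_range] at hz
          omega
      _ = (2 * b1 + S * r) * ((3 / 4) ^ i * #F + 2 * E) := by
          rw [sum_const, card_range, nsmul_eq_mul]; push_cast; ring
  have hnn := not_nice hG hF v D r b1 hL hd1 hvD hND
    (fun u hu' => h8r _ (hA1 u hu')) (fun u hu' w hw => h8r _ (hA2 u hu' w hw)) hB1 hB2 hB3 e2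
  rw [← hE] at hnn
  set G1 : ℝ := ((#(M v) + 2) * (2 * #(M v) * D) * (((r : ℝ) + 1) / 2 ^ r) +
    (#(M v) + 1) / 2 ^ b1) with hG1
  have hF0 : (0 : ℝ) ≤ #F := by positivity
  set Y : ℝ := 2 * (b1 : ℝ) + S * r with hY
  have hY0 : 0 ≤ Y := by positivity
  have hfin : (#(F.filter fun φ => #(Uq M φ v) ≤ #(Bl M φ v) + CJ * Nat.sqrt #(M v)) : ℝ) ≤
      ((1 + 2 * Y) * G1 + Y * (3 / 4) ^ i) * #F := by
    calc _ ≤ E + Y * ((3 / 4) ^ i * #F + 2 * E) := by linarith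
      _ = (1 + 2 * Y) * E + Y * (3 / 4) ^ i * #F := by ring
      _ ≤ (1 + 2 * Y) * (G1 * #F) + Y * (3 / 4) ^ i * #F := by
          have : (0 : ℝ) ≤ 1 + 2 * Y := by positivity
          have := mul_le_mul_of_nonneg_left hnn this
          linarith
      _ = _ := by ring
  have hD6 : (0 : ℝ) ≤ (D : ℝ) ^ 6 := by positivity
  have : (#(F.filter fun φ => #(Uq M φ v) ≤ #(Bl M φ v) + CJ * Nat.sqrt #(M v)) : ℝ) *
      (D : ℝ) ^ 6 ≤ #F := by
    calc _ ≤ (((1 + 2 * Y) * G1 + Y * (3 / 4) ^ i) * #F) * (D : ℝ) ^ 6 :=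
          mul_le_mul_of_nonneg_right hfin hD6
      _ = (((1 + 2 * Y) * G1 + Y * (3 / 4) ^ i) * (D : ℝ) ^ 6) * #F := by ring
      _ ≤ 1 * #F := mul_le_mul_of_nonneg_right e15 hF0
      _ = #F := one_mul _
  exact_mod_cast this

end Pool.Agent.Helper4.CP
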