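import Pool.Agent.Helper4.PC.Base
import Pool.Agent.Helper4.PC.St.A2
import Pool.Agent.Helper4.PC.St.S1B

/-!
The local lemma for small target sets (MP_cab741_co).
-/

namespace Pool.Agent.Helper4.CP

open Finset Pool.Agent.Helper4.PC

variable {V C : Type} [Fintype V] [DecidableEq V] [DecidableEq C]

/-- small degree step (target set `M v`) -/
theorem small_step {N M : V → Finset V} {L : V → Finset C} {B : Set V} {F : Finset (V → Option C)}
    (hG : Gr N) (hF : Clo N L B F) (v : V) (hB1 : ∀ u ∈ M v, u ∈ B) (m i : ℕ) :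
    #(F.filter fun φ => (∀ u ∈ M v, m ≤ #(Av N L φ u)) ∧
        #(((M v).image φ).erase none) = i) * ((#(M v) - i) * (m - #(M v))) ≤
      #(F.filter fun φ => #(((M v).image φ).erase none) = i + 1) *
        (#(M v) * (#(M v) + 1)) := by
  -- a coloured neighbour outside `Uq` has a partner of the same colour
  have hpart : ∀ φ : V → Option C, ∀ u ∈ M v, u ∉ Uq M φ v → φ u ≠ none →
      ∃ w ∈ M v, w ≠ u ∧ φ w = φ u := by
    intro φ u hu hU hn
    by_contra hcon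
    push Not at hcon
    apply hU
    rw [Uq, mem_filter]
    refine ⟨hu, hn, fun w hw hwu => ?_⟩
    by_contra hne
    exact hcon w hw hne hwu
  refine switch
    (mv := fun φ => ((M v).filter fun u => u ∉ Uq M φ v).sigma
      (fun u => (Av N L φ u).filter fun a => some a ∉ (M v).image φ))
    (lb := fun ψ => (M v) ×ˢ (insert none ((M v).image ψ)))
    (f := fun φ (p : (_ : V) × C) => Function.update φ p.1 (some p.2))
    (g := fun φ p => (p.1, φ p.1)) _ _ _ _ ?_ ?_ ?_ ?_ ?_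
  · rintro φ hφ ⟨u, a⟩ hp
    obtain ⟨hu, ha⟩ := mem_sigma.1 hp
    obtain ⟨hφF, _, hi⟩ := mem_filter.1 hφ
    obtain ⟨huN, hU⟩ := mem_filter.1 hu
    obtain ⟨haA, haI⟩ := mem_filter.1 ha
    simp only at huN hU haA haI ⊢
    rw [mem_filter]
    refine ⟨?_, ?_⟩
    · refine hF.clo φ hφF _ (Om_update_some hG (hF.sub hφF) haA) ?_
      intro x hx
      rw [Function.update_of_ne]
      rintro rfl
      exact hx (hB1 _ huN)
    · have key : ((M v).image (Function.update φ u (some a))).erase none =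
          insert (some a) (((M v).image φ).erase none) := by
        ext c
        rw [mem_erase, mem_image, mem_insert, mem_erase, mem_image]
        constructor
        · rintro ⟨hc, w, hw, rfl⟩
          by_cases hwu : w = u
          · subst hwu
            left; rw [Function.update_self]
          · rw [Function.update_of_ne hwu] at hc ⊢
            exact Or.inr ⟨hc, w, hw, rfl⟩
        · rintro (rfl | ⟨hc, w, hw, rfl⟩)
          · exact ⟨by simp, u, huN, Function.update_self _ _ _⟩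
          · refine ⟨hc, ?_⟩
            by_cases hwu : w = u
            · subst hwu
              obtain ⟨w', hw', hne, hwe⟩ := hpart φ w huN hU hc
              exact ⟨w', hw', by rw [Function.update_of_ne hne, hwe]⟩
            · exact ⟨w, hw, by rw [Function.update_of_ne hwu]⟩
      rw [key, card_insert_of_notMem, hi]
      intro h
      exact haI (mem_of_mem_erase h)
  · rintro φ hφ ⟨u, a⟩ hp
    obtain ⟨hu, ha⟩ := mem_sigma.1 hp
    obtain ⟨huN, hU⟩ := mem_filter.1 hu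
    simp only at huN hU ⊢
    rw [mem_product, mem_insert, mem_image]
    refine ⟨huN, ?_⟩
    by_cases hn : φ u = none
    · exact Or.inl hn
    · obtain ⟨w, hw, hne, hwe⟩ := hpart φ u huN hU hn
      exact Or.inr ⟨w, hw, by rw [Function.update_of_ne hne, hwe]⟩
  · rintro φ hφ ⟨u, a⟩ hp φ' hφ' ⟨u', a'⟩ hp' h1 h2
    simp only [Prod.mk.injEq] at h1 h2
    obtain ⟨rfl, h2⟩ := h2
    have ha : some a = some a' := by
      have := congrFun h1 u
      rwa [Function.update_self, Function.update_self] at this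
    have hφφ : φ = φ' := by
      funext x
      by_cases hx : x = u
      · rw [hx]; exact h2
      · have := congrFun h1 x
        rwa [Function.update_of_ne hx, Function.update_of_ne hx] at this
    refine ⟨hφφ, ?_⟩
    rw [Option.some.inj ha]
  · intro φ hφ
    obtain ⟨hφF, hm, hi⟩ := mem_filter.1 hφ
    rw [card_sigma]
    have hUq : #(Uq M φ v) ≤ i := by
      rw [← hi]
      refine card_le_card_of_injOn φ ?_ ?_
      · intro u hu
        have hu' := mem_filter.1 (mem_coe.1 hu)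
        rw [mem_coe, mem_erase, mem_image]
        exact ⟨hu'.2.1, u, hu'.1, rfl⟩
      · intro u hu u' hu' h
        have h1 := mem_filter.1 (mem_coe.1 hu)
        have h2 := mem_filter.1 (mem_coe.1 hu')
        exact h2.2.2 u h1.1 h
    have hcardU : #(M v) - i ≤ #((M v).filter fun u => u ∉ Uq M φ v) := by
      have h1 := card_filter_add_card_filter_not (s := M v) (fun u => u ∈ Uq M φ v)
      have h2 : #((M v).filter fun u => u ∈ Uq M φ v) ≤ #(Uq M φ v) := by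
        apply card_le_card
        intro u hu
        exact (mem_filter.1 hu).2
      omega
    have hav : ∀ u ∈ (M v).filter fun u => u ∉ Uq M φ v,
        m - #(M v) ≤ #((Av N L φ u).filter fun a => some a ∉ (M v).image φ) := by
      intro u hu
      have huN := (mem_filter.1 hu).1
      have h1 := card_filter_add_card_filter_not (s := Av N L φ u)
        (fun a => some a ∈ (M v).image φ)
      have h2 : #((Av N L φ u).filter fun a => some a ∈ (M v).image φ) ≤ #(M v) := by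
        refine le_trans ?_ (card_image_le (s := M v) (f := φ))
        refine card_le_card_of_injOn some ?_ ?_
        · intro a ha
          exact (mem_filter.1 (mem_coe.1 ha)).2
        · intro a _ b _ h
          exact Option.some.inj h
      have h3 := hm u huN
      omega
    calc (#(M v) - i) * (m - #(M v))
        ≤ #((M v).filter fun u => u ∉ Uq M φ v) * (m - #(M v)) := Nat.mul_le_mul_right _ hcardU
      _ = ∑ _u ∈ (M v).filter fun u => u ∉ Uq M φ v, (m - #(M v)) := by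
          rw [sum_const, smul_eq_mul]
      _ ≤ _ := sum_le_sum hav
  · intro ψ _
    rw [card_product]
    refine Nat.mul_le_mul_left _ ?_
    exact (card_insert_le _ _).trans (Nat.add_le_add_right card_image_le 1)

/-- the recursion -/
private theorem rec_bound (Xc : ℕ → ℝ) (d : ℕ) (E F X : ℝ) (hE : 0 ≤ E) (hX0 : 0 ≤ X)
    (hX : X ≤ 1 / 2) (h0 : Xc d ≤ F)
    (hstep : ∀ j, j + 1 ≤ d → Xc (d - (j + 1)) ≤ (Xc (d - j) + E) * X) :
    ∀ j, j ≤ d → Xc (d - j) ≤ X ^ j * F + E := by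
  intro j
  induction j with
  | zero => intro _; rw [Nat.sub_zero, pow_zero, one_mul]; linarith
  | succ j ih =>
    intro hj
    have h1 := hstep j hj
    have h2 := ih (by omega)
    have h3 : (Xc (d - j) + E) * X ≤ (X ^ j * F + E + E) * X :=
      mul_le_mul_of_nonneg_right (by linarith) hX0
    have h4 : (X ^ j * F + E + E) * X = X ^ (j + 1) * F + (2 * X) * E := by ring
    have h5 : (2 * X) * E ≤ 1 * E := mul_le_mul_of_nonneg_right (by linarith) hE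
    linarith

/-- eventually exponential beats polynomial -/
private theorem exp_ev (c : ℝ) (hc : 0 ≤ c) (k : ℕ) : ∃ r0 : ℕ, ∀ r : ℕ, r0 ≤ r →
    c * ((r : ℝ) + 1) ^ k ≤ 2 ^ r := by
  have h := tendsto_pow_const_div_const_pow_of_one_lt k (r := (2 : ℝ)) (by norm_num)
  have h2 : ∀ᶠ n : ℕ in Filter.atTop, (n : ℝ) ^ k / 2 ^ n < 1 / ((c + 1) * 2) := by
    apply h.eventually_lt_const
    positivity
  obtain ⟨n0, hn0⟩ := Filter.eventually_atTop.1 h2
  refine ⟨n0, fun r hr => ?_⟩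
  have h3 := hn0 (r + 1) (by omega)
  push_cast at h3
  rw [div_lt_div_iff₀ (by positivity) (by positivity)] at h3
  have h4 : (2 : ℝ) ^ (r + 1) = 2 ^ r * 2 := pow_succ _ _
  rw [h4] at h3
  have h5 : (0 : ℝ) ≤ ((r : ℝ) + 1) ^ k := by positivity
  nlinarith [h3]

/-- the numerical estimate -/
private theorem num_bound (A : ℕ) (hA : 1 ≤ A) : ∃ r0 : ℕ, ∀ r d Δ : ℕ, r0 ≤ r →
    Δ ≤ 8 * A * (r + 1) ^ 2 →
    400 ≤ d → d ^ 8 ≤ Δ → d < (r + 1) / 2 ∧ ∃ X : ℝ, 0 ≤ X ∧ X ≤ 1 / 2 ∧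
      (d : ℝ) * (d + 1) ≤ X * (((r + 1) / 2 - d : ℕ) : ℝ) ∧
      (∀ j : ℕ, d ≤ 2 * j + 194 → 2 * (Δ : ℝ) ^ 6 * ((d + 1) * X ^ j) ≤ 1) ∧
      2 * (Δ : ℝ) ^ 6 * ((d + 2) * (d * (r + 1))) ≤ 2 ^ r := by
  obtain ⟨r1, hr1⟩ := exp_ev (4 * (8 * (A : ℝ)) ^ 6) (by positivity) 15
  obtain ⟨W, hW⟩ : ∃ W : ℕ, W = 2 ^ 400 * A ^ 31 := ⟨_, rfl⟩
  refine ⟨r1 + W, fun r d Δ hr hΔ hd hdΔ => ?_⟩
  set R : ℕ := r + 1 with hR
  have hA31 : 1 ≤ A ^ 31 := Nat.one_le_pow _ _ hA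
  have hWR : W ≤ R := by omega
  have hAW : 2 ^ 400 * A ≤ W := by
    rw [hW]
    exact Nat.mul_le_mul_left _ (Nat.le_self_pow (by norm_num) A)
  have hRbig : 2 ^ 400 * A ≤ R := by omega
  have hRpos' : 0 < R := by omega
  have hRpos : (0 : ℝ) < R := by exact_mod_cast hRpos'
  have hAR : (1 : ℝ) ≤ A := by exact_mod_cast hA
  have hd8 : d ^ 8 ≤ 8 * A * R ^ 2 := hdΔ.trans hΔ
  -- `16 d ^ 2 ≤ R`
  have h16 : 16 * d ^ 2 ≤ R := by
    by_contra hc
    push Not at hc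
    have h1 : R ^ 4 ≤ (16 * d ^ 2) ^ 4 := Nat.pow_le_pow_left hc.le 4
    have h2 : (16 * d ^ 2) ^ 4 = 16 ^ 4 * d ^ 8 := by ring
    rw [h2] at h1
    have h3 : R ^ 4 ≤ 16 ^ 4 * (8 * A * R ^ 2) := h1.trans (Nat.mul_le_mul_left _ hd8)
    have h4 : R ^ 4 = R * R * R ^ 2 := by ring
    have h6 : 0 < R ^ 2 := by positivity
    have h5 : (16 ^ 4 * 8 * A + 1) ≤ R * R := by
      have h7 : 16 ^ 4 * 8 * A + 1 ≤ R := by omega
      exact h7.trans (Nat.le_mul_of_pos_left R hRpos')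
    have h8 : (16 ^ 4 * 8 * A + 1) * R ^ 2 ≤ R * R * R ^ 2 := Nat.mul_le_mul_right _ h5
    nlinarith
  have h8d : 8 * d ≤ R := by nlinarith
  have hlt : d < R / 2 := by omega
  have hm : R ≤ 4 * (R / 2 - d) := by omega
  have hmR : (R : ℝ) ≤ 4 * ((R / 2 - d : ℕ) : ℝ) := by exact_mod_cast hm
  have hΔR : (Δ : ℝ) ≤ 8 * A * (R : ℝ) ^ 2 := by exact_mod_cast hΔ
  have hΔ6 : (Δ : ℝ) ^ 6 ≤ (8 * (A : ℝ)) ^ 6 * (R : ℝ) ^ 12 := by
    calc (Δ : ℝ) ^ 6 ≤ (8 * A * (R : ℝ) ^ 2) ^ 6 := pow_le_pow_left₀ (by positivity) hΔR 6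
      _ = (8 * (A : ℝ)) ^ 6 * (R : ℝ) ^ 12 := by ring
  have hd1 : (1 : ℝ) ≤ d := by exact_mod_cast (show 1 ≤ d by omega)
  have h16R : (16 : ℝ) * (d : ℝ) ^ 2 ≤ R := by exact_mod_cast h16
  have hdR : (8 : ℝ) * d ≤ R := by exact_mod_cast h8d
  set X : ℝ := 8 * (d : ℝ) ^ 2 / R with hX
  have hX0 : 0 ≤ X := by positivity
  have hXh : X ≤ 1 / 2 := by
    rw [hX, div_le_iff₀ hRpos]
    linarith
  have hX1 : X ≤ 1 := hXh.trans (by norm_num)
  refine ⟨hlt, X, hX0, hXh, ?_, ?_, ?_⟩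
  · rw [hX, div_mul_eq_mul_div, le_div_iff₀ hRpos]
    have h0 : (d : ℝ) * (d + 1) ≤ 2 * (d : ℝ) ^ 2 := by nlinarith
    calc (d : ℝ) * (d + 1) * R ≤ 2 * (d : ℝ) ^ 2 * (4 * ((R / 2 - d : ℕ) : ℝ)) :=
          mul_le_mul h0 hmR (by positivity) (by positivity)
      _ = 8 * (d : ℝ) ^ 2 * ((R / 2 - d : ℕ) : ℝ) := by ring
  · intro j hj
    have hj103 : 103 ≤ j := by omega
    have h1 : X ^ j ≤ X ^ 100 := pow_le_pow_of_le_one hX0 hX1 (by omega)
    have hd8R : (d : ℝ) ^ 8 ≤ 8 * A * (R : ℝ) ^ 2 := by exact_mod_cast hd8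
    have h4 : X ^ 4 ≤ 2 ^ 15 * A / (R : ℝ) ^ 2 := by
      calc X ^ 4 = 8 ^ 4 * (d : ℝ) ^ 8 / (R : ℝ) ^ 4 := by rw [hX, div_pow]; ring
        _ ≤ 8 ^ 4 * (8 * A * (R : ℝ) ^ 2) / (R : ℝ) ^ 4 := by
            apply div_le_div_of_nonneg_right _ (by positivity)
            exact mul_le_mul_of_nonneg_left hd8R (by norm_num)
        _ = 2 ^ 15 * A / (R : ℝ) ^ 2 := by
            field_simp
            norm_num
    have h100 : X ^ 100 ≤ (2 ^ 15 * A / (R : ℝ) ^ 2) ^ 25 := by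
      rw [show (100 : ℕ) = 4 * 25 from rfl, pow_mul]
      exact pow_le_pow_left₀ (by positivity) h4 25
    have h5 : (d : ℝ) + 1 ≤ R := by linarith
    have h6 : 2 * (Δ : ℝ) ^ 6 * ((d + 1) * X ^ j) ≤
        2 * ((8 * (A : ℝ)) ^ 6 * (R : ℝ) ^ 12) * (R * (2 ^ 15 * A / (R : ℝ) ^ 2) ^ 25) := by
      have h7 := h1.trans h100
      have h8 : (0 : ℝ) ≤ X ^ j := pow_nonneg hX0 j
      gcongr
    refine h6.trans ?_
    have h7 : 2 * ((8 * (A : ℝ)) ^ 6 * (R : ℝ) ^ 12) * (R * (2 ^ 15 * A / (R : ℝ) ^ 2) ^ 25) =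
        (2 ^ 394 * (A : ℝ) ^ 31) / (R : ℝ) ^ 37 := by
      rw [div_pow]
      field_simp
      norm_num
    rw [h7, div_le_one (by positivity)]
    have h9 : (2 ^ 394 * (A : ℝ) ^ 31) ≤ W := by
      rw [hW]
      push_cast
      exact mul_le_mul_of_nonneg_right (pow_le_pow_right₀ (by norm_num) (by norm_num))
        (by positivity)
    have h10 : (W : ℝ) ≤ R := by exact_mod_cast hWR
    have hR1 : (1 : ℝ) ≤ R := by exact_mod_cast hRpos'
    exact (h9.trans h10).trans (le_self_pow₀ hR1 (by norm_num))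
  · have h1 := hr1 r (by omega)
    have h2 : (R : ℝ) = (r : ℝ) + 1 := by rw [hR]; push_cast; ring
    rw [← h2] at h1 ⊢
    refine le_trans ?_ h1
    have h3 : (d : ℝ) + 2 ≤ R := by linarith
    have h4 : (d : ℝ) ≤ R := by linarith
    calc 2 * (Δ : ℝ) ^ 6 * ((d + 2) * (d * R))
        ≤ 2 * ((8 * (A : ℝ)) ^ 6 * (R : ℝ) ^ 12) * (R * (R * R)) := by gcongr
      _ = 2 * (8 * (A : ℝ)) ^ 6 * (R : ℝ) ^ 15 := by ring
      _ ≤ 4 * (8 * (A : ℝ)) ^ 6 * (R : ℝ) ^ 15 := by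
          have : (0 : ℝ) ≤ (8 * (A : ℝ)) ^ 6 * (R : ℝ) ^ 15 := by positivity
          linarith

/-- local lemma, small target sets -/
theorem local_small (A : ℕ) (hA : 1 ≤ A) : ∃ Δ0 : ℕ, ∀ (V C : Type) [Fintype V] [DecidableEq V]
    [DecidableEq C] (N M : V → Finset V) (L : V → Finset C) (B : Set V)
    (F : Finset (V → Option C)) (v : V) (D : ℕ), Gr N → Clo N L B F → Δ0 ≤ D →
    (∀ x, #(N x) + 1 ≤ #(L x)) → 400 ≤ #(M v) → #(M v) ^ 8 ≤ D →
    (∀ u ∈ M v, D ≤ A * #(L u)) →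
    (∀ u ∈ M v, u ∈ B) → (∀ u ∈ M v, ∀ w ∈ N u, w ∈ B) →
    #(F.filter fun φ => #(Uq M φ v) ≤ #(Bl M φ v) + 194) * D ^ 6 ≤ #F := by
  obtain ⟨r0, hr0⟩ := num_bound A hA
  refine ⟨8 * A * r0 ^ 2, ?_⟩
  intro V C _ _ _ N M L B F v Δ hG hF hΔ0 hL hd17 hd8 hLu hB1 hB2
  have h8A : 0 < 8 * A := by omega
  set d : ℕ := #(M v) with hd
  set r : ℕ := Nat.sqrt (Δ / (8 * A)) with hr
  set m : ℕ := (r + 1) / 2 with hm
  have hrr0 : r0 ≤ r := by
    rw [hr, Nat.le_sqrt', Nat.le_div_iff_mul_le h8A]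
    linarith
  have hr8 : ∀ n : ℕ, Δ ≤ A * n → 8 * r ^ 2 ≤ n := by
    intro n hn
    have h1 := Nat.sqrt_le' (Δ / (8 * A))
    rw [← hr] at h1
    have h2 := (Nat.le_div_iff_mul_le h8A).1 h1
    have h3 : A * (8 * r ^ 2) ≤ A * n := by
      calc A * (8 * r ^ 2) = r ^ 2 * (8 * A) := by ring
        _ ≤ Δ := h2
        _ ≤ A * n := hn
    exact Nat.le_of_mul_le_mul_left h3 (by omega)
  have hΔr : Δ ≤ 8 * A * (r + 1) ^ 2 := by
    have h1 := Nat.lt_succ_sqrt' (Δ / (8 * A))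
    rw [← hr, Nat.succ_eq_add_one] at h1
    have h2 := (Nat.div_lt_iff_lt_mul h8A).1 h1
    linarith
  obtain ⟨hdm, X, hX0, hX12, hXd, hXj, hexp⟩ := hr0 r d Δ hrr0 hΔr hd17 hd8
  -- the exceptional set
  set E := F.filter (fun φ => ∃ u ∈ M v, 2 * #(Av N L φ u) ≤ r) with hE
  have hEc : 2 ^ r * #E ≤ d * (r + 1) * #F := by
    have h1 : E ⊆ (M v).biUnion (fun u => F.filter fun φ => 2 * #(Av N L φ u) ≤ r) := by
      intro φ hφ
      rw [hE, mem_filter] at hφ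
      obtain ⟨hφF, u, hu, h2⟩ := hφ
      rw [mem_biUnion]
      exact ⟨u, hu, mem_filter.2 ⟨hφF, h2⟩⟩
    calc 2 ^ r * #E ≤ 2 ^ r * ∑ u ∈ M v, #(F.filter fun φ => 2 * #(Av N L φ u) ≤ r) :=
          Nat.mul_le_mul_left _ ((card_le_card h1).trans card_biUnion_le)
      _ = ∑ u ∈ M v, 2 ^ r * #(F.filter fun φ => 2 * #(Av N L φ u) ≤ r) := mul_sum _ _ _
      _ ≤ ∑ _u ∈ M v, (r + 1) * #F := by
          apply sum_le_sum
          intro u hu
          exact av_tail hF u (hB2 u hu) (hL u) r (hr8 _ (hLu u hu))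
      _ = d * (r + 1) * #F := by rw [sum_const, smul_eq_mul, ← hd, mul_assoc]
  -- the level sets
  have hTX : ∀ i, #(F.filter fun φ => #(((M v).image φ).erase none) = i) ≤
      #(F.filter fun φ => (∀ u ∈ M v, m ≤ #(Av N L φ u)) ∧
        #(((M v).image φ).erase none) = i) + #E := by
    intro i
    refine le_trans (card_le_card ?_) (card_union_le _ _)
    intro φ hφ
    rw [mem_filter] at hφ
    rw [mem_union]
    by_cases h1 : ∀ u ∈ M v, m ≤ #(Av N L φ u)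
    · left
      exact mem_filter.2 ⟨hφ.1, h1, hφ.2⟩
    · right
      push Not at h1
      obtain ⟨u, hu, h2⟩ := h1
      rw [hE, mem_filter]
      exact ⟨hφ.1, u, hu, by omega⟩
  have hstepN := fun i => small_step hG hF v hB1 m i
  rw [← hd] at hstepN
  set Xc : ℕ → ℝ := fun i => (#(F.filter fun φ => (∀ u ∈ M v, m ≤ #(Av N L φ u)) ∧
        #(((M v).image φ).erase none) = i) : ℝ) with hXc
  have hXcv : ∀ i, Xc i = (#(F.filter fun φ => (∀ u ∈ M v, m ≤ #(Av N L φ u)) ∧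
        #(((M v).image φ).erase none) = i) : ℝ) := fun i => rfl
  have hmd : (0 : ℝ) < ((m - d : ℕ) : ℝ) := by
    have : 0 < m - d := by omega
    exact_mod_cast this
  have hF0 : (0 : ℝ) ≤ (#F : ℝ) := Nat.cast_nonneg _
  have hE0 : (0 : ℝ) ≤ (#E : ℝ) := Nat.cast_nonneg _
  have hrec := rec_bound Xc d (#E : ℝ) (#F : ℝ) X hE0 hX0 hX12 (by
    rw [hXcv]
    exact_mod_cast card_le_card (filter_subset _ _)) (by
    intro j hj
    have h1 := hstepN (d - (j + 1))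
    have h2 := hTX (d - (j + 1) + 1)
    have h3 : d - (d - (j + 1)) = j + 1 := by omega
    have h4 : d - (j + 1) + 1 = d - j := by omega
    rw [h3, h4] at h1
    rw [h4] at h2
    have h5 : Xc (d - (j + 1)) * (((j : ℝ) + 1) * ((m - d : ℕ) : ℝ)) ≤
        (Xc (d - j) + (#E : ℝ)) * ((d : ℝ) * (d + 1)) := by
      have h6 : #(F.filter fun φ => (∀ u ∈ M v, m ≤ #(Av N L φ u)) ∧
          #(((M v).image φ).erase none) = d - (j + 1)) * ((j + 1) * (m - d)) ≤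
          (#(F.filter fun φ => (∀ u ∈ M v, m ≤ #(Av N L φ u)) ∧
          #(((M v).image φ).erase none) = d - j) + #E) * (d * (d + 1)) :=
        h1.trans (Nat.mul_le_mul_right _ h2)
      rw [hXcv, hXcv]
      exact_mod_cast h6
    have hXnn : 0 ≤ Xc (d - (j + 1)) := Nat.cast_nonneg _
    have hXnn2 : 0 ≤ Xc (d - j) := Nat.cast_nonneg _
    have h7 : Xc (d - (j + 1)) * ((m - d : ℕ) : ℝ) ≤
        (Xc (d - j) + (#E : ℝ)) * X * ((m - d : ℕ) : ℝ) := by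
      calc Xc (d - (j + 1)) * ((m - d : ℕ) : ℝ)
          ≤ Xc (d - (j + 1)) * (((j : ℝ) + 1) * ((m - d : ℕ) : ℝ)) := by
            apply mul_le_mul_of_nonneg_left _ hXnn
            have hj0 : (0 : ℝ) ≤ (j : ℝ) := Nat.cast_nonneg _
            nlinarith [mul_nonneg hj0 hmd.le]
        _ ≤ (Xc (d - j) + (#E : ℝ)) * ((d : ℝ) * (d + 1)) := h5
        _ ≤ (Xc (d - j) + (#E : ℝ)) * (X * ((m - d : ℕ) : ℝ)) :=
            mul_le_mul_of_nonneg_left hXd (by linarith)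
        _ = (Xc (d - j) + (#E : ℝ)) * X * ((m - d : ℕ) : ℝ) := by ring
    exact le_of_mul_le_mul_right h7 hmd)
  -- the bad set
  set I := (range (d + 1)).filter (fun i => 2 * i ≤ d + 194) with hI
  have hbad : (#(F.filter fun φ => #(Uq M φ v) ≤ #(Bl M φ v) + 194) : ℝ) ≤
      (#E : ℝ) + ∑ i ∈ I, Xc i := by
    have h1 : (F.filter fun φ => #(Uq M φ v) ≤ #(Bl M φ v) + 194) ⊆ E ∪ I.biUnion (fun i =>
        F.filter fun φ => (∀ u ∈ M v, m ≤ #(Av N L φ u)) ∧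
        #(((M v).image φ).erase none) = i) := by
      intro φ hφ
      rw [mem_filter] at hφ
      rw [mem_union]
      by_cases h1 : ∀ u ∈ M v, m ≤ #(Av N L φ u)
      · right
        rw [mem_biUnion]
        have h2 := col_card M φ v
        rw [← hd] at h2
        have h3 := hφ.2
        refine ⟨#(((M v).image φ).erase none), ?_, mem_filter.2 ⟨hφ.1, h1, rfl⟩⟩
        rw [hI, mem_filter, mem_range]
        omega
      · left
        push Not at h1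
        obtain ⟨u, hu, h2⟩ := h1
        rw [hE, mem_filter]
        exact ⟨hφ.1, u, hu, by omega⟩
    have h2 : #(F.filter fun φ => #(Uq M φ v) ≤ #(Bl M φ v) + 194) ≤ #E + ∑ i ∈ I,
        #(F.filter fun φ => (∀ u ∈ M v, m ≤ #(Av N L φ u)) ∧
        #(((M v).image φ).erase none) = i) :=
      (card_le_card h1).trans ((card_union_le _ _).trans (Nat.add_le_add_left card_biUnion_le _))
    simp only [hXcv]
    exact_mod_cast h2
  have hIcard : (#I : ℝ) ≤ (d : ℝ) + 1 := by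
    have : #I ≤ d + 1 := by
      rw [hI]
      exact (card_filter_le _ _).trans (by rw [card_range])
    exact_mod_cast this
  have hd1 : (0 : ℝ) < (d : ℝ) + 1 := by positivity
  have hXi : ∀ i ∈ I, 2 * (Δ : ℝ) ^ 6 * Xc i ≤ (#F : ℝ) / (d + 1) +
      2 * (Δ : ℝ) ^ 6 * (#E : ℝ) := by
    intro i hi
    rw [hI, mem_filter, mem_range] at hi
    have h1 := hrec (d - i) (by omega)
    rw [show d - (d - i) = i by omega] at h1
    have h2 := hXj (d - i) (by omega)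
    have h3 : 2 * (Δ : ℝ) ^ 6 * Xc i ≤ 2 * (Δ : ℝ) ^ 6 * (X ^ (d - i) * (#F : ℝ) + (#E : ℝ)) :=
      mul_le_mul_of_nonneg_left h1 (by positivity)
    have h4 : 2 * (Δ : ℝ) ^ 6 * (X ^ (d - i) * (#F : ℝ)) ≤ (#F : ℝ) / (d + 1) := by
      rw [le_div_iff₀ hd1]
      calc 2 * (Δ : ℝ) ^ 6 * (X ^ (d - i) * (#F : ℝ)) * (d + 1)
          = 2 * (Δ : ℝ) ^ 6 * (((d : ℝ) + 1) * X ^ (d - i)) * (#F : ℝ) := by ring
        _ ≤ 1 * (#F : ℝ) := mul_le_mul_of_nonneg_right h2 hF0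
        _ = (#F : ℝ) := one_mul _
    linarith [mul_add (2 * (Δ : ℝ) ^ 6) (X ^ (d - i) * (#F : ℝ)) (#E : ℝ)]
  have hsum : 2 * (Δ : ℝ) ^ 6 * ∑ i ∈ I, Xc i ≤ (#F : ℝ) +
      ((d : ℝ) + 1) * (2 * (Δ : ℝ) ^ 6 * (#E : ℝ)) := by
    rw [mul_sum]
    calc ∑ i ∈ I, 2 * (Δ : ℝ) ^ 6 * Xc i ≤ ∑ _i ∈ I, ((#F : ℝ) / (d + 1) +
          2 * (Δ : ℝ) ^ 6 * (#E : ℝ)) := sum_le_sum hXi
      _ = (#I : ℝ) * ((#F : ℝ) / (d + 1) + 2 * (Δ : ℝ) ^ 6 * (#E : ℝ)) := by
          rw [sum_const, nsmul_eq_mul]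
      _ ≤ ((d : ℝ) + 1) * ((#F : ℝ) / (d + 1) + 2 * (Δ : ℝ) ^ 6 * (#E : ℝ)) :=
          mul_le_mul_of_nonneg_right hIcard (by positivity)
      _ = (#F : ℝ) + ((d : ℝ) + 1) * (2 * (Δ : ℝ) ^ 6 * (#E : ℝ)) := by
          rw [mul_add, mul_div_cancel₀ _ hd1.ne']
  have hEF : 2 * (Δ : ℝ) ^ 6 * ((d + 2) * (#E : ℝ)) ≤ (#F : ℝ) := by
    have h1 : (2 : ℝ) ^ r * (#E : ℝ) ≤ (d : ℝ) * ((r : ℝ) + 1) * (#F : ℝ) := by exact_mod_cast hEc
    have h2 : (0 : ℝ) < 2 ^ r := by positivity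
    refine le_of_mul_le_mul_left ?_ h2
    calc (2 : ℝ) ^ r * (2 * (Δ : ℝ) ^ 6 * ((d + 2) * (#E : ℝ)))
        = 2 * (Δ : ℝ) ^ 6 * (d + 2) * ((2 : ℝ) ^ r * (#E : ℝ)) := by ring
      _ ≤ 2 * (Δ : ℝ) ^ 6 * (d + 2) * ((d : ℝ) * ((r : ℝ) + 1) * (#F : ℝ)) :=
          mul_le_mul_of_nonneg_left h1 (by positivity)
      _ = 2 * (Δ : ℝ) ^ 6 * ((d + 2) * (d * (r + 1))) * (#F : ℝ) := by ring
      _ ≤ 2 ^ r * (#F : ℝ) := mul_le_mul_of_nonneg_right hexp hF0
  have hfin : (#(F.filter fun φ => #(Uq M φ v) ≤ #(Bl M φ v) + 194) : ℝ) * (Δ : ℝ) ^ 6 ≤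
      (#F : ℝ) := by
    have h1 : 2 * (Δ : ℝ) ^ 6 * (#(F.filter fun φ => #(Uq M φ v) ≤ #(Bl M φ v) + 194) : ℝ) ≤
        2 * (Δ : ℝ) ^ 6 * ((#E : ℝ) + ∑ i ∈ I, Xc i) :=
      mul_le_mul_of_nonneg_left hbad (by positivity)
    have h2 : 2 * (Δ : ℝ) ^ 6 * ((#E : ℝ) + ∑ i ∈ I, Xc i) =
        2 * (Δ : ℝ) ^ 6 * (#E : ℝ) + 2 * (Δ : ℝ) ^ 6 * ∑ i ∈ I, Xc i := mul_add _ _ _
    have h3 : 2 * (Δ : ℝ) ^ 6 * ((d + 2) * (#E : ℝ)) =
        2 * (Δ : ℝ) ^ 6 * (#E : ℝ) + ((d : ℝ) + 1) * (2 * (Δ : ℝ) ^ 6 * (#E : ℝ)) := by ring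
    linarith
  exact_mod_cast hfin

end Pool.Agent.Helper4.CP
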