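import Mathlib

/-!
Numerical estimate for the parameters of the local lemma (target set version, MP_cab741_co).
-/

namespace Pool.Agent.Helper4.CP

private theorem small_ev (k : ℕ) (C a : ℝ) (hC : 0 ≤ C) (ha : 0 < a) (ha1 : a < 1) :
    ∃ R : ℕ, ∀ n : ℕ, R ≤ n → C * ((n : ℝ) + 1) ^ k * a ^ n ≤ 1 / 2 := by
  have h := tendsto_pow_const_mul_const_pow_of_abs_lt_one k
    (show |a| < 1 by rw [abs_of_pos ha]; exact ha1)
  have h2 := h.comp (Filter.tendsto_add_atTop_nat 1)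
  have hpos : 0 < 1 / (2 * (C * a⁻¹ + 1)) := by positivity
  have h3 := h2.eventually (gt_mem_nhds hpos)
  obtain ⟨R, hR⟩ := Filter.eventually_atTop.1 h3
  refine ⟨R, fun n hn => ?_⟩
  have h4 := hR n hn
  simp only [Function.comp, Nat.cast_add, Nat.cast_one] at h4
  have h5 : C * ((n : ℝ) + 1) ^ k * a ^ n = (C * a⁻¹) * (((n : ℝ) + 1) ^ k * a ^ (n + 1)) := by
    rw [pow_succ]; field_simp
  rw [h5]
  have hCa : 0 ≤ C * a⁻¹ := by positivity
  calc (C * a⁻¹) * (((n : ℝ) + 1) ^ k * a ^ (n + 1))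
      ≤ (C * a⁻¹) * (1 / (2 * (C * a⁻¹ + 1))) := mul_le_mul_of_nonneg_left h4.le hCa
    _ ≤ 1 / 2 := by
        rw [mul_one_div, div_le_div_iff₀ (by positivity) (by norm_num)]
        nlinarith

private theorem bd (c s d D A B E S r : ℝ) (hc : 1 ≤ c) (hs : 1 ≤ s) (hr : r + 1 = s)
    (hr0 : 0 ≤ r) (hd0 : 0 ≤ d) (hd : d ≤ c * s ^ 2) (hD0 : 0 ≤ D) (hD : D ≤ c ^ 8 * s ^ 16)
    (hA : 0 ≤ A) (hB : 0 ≤ B) (hBA : B ≤ A) (hE : 0 ≤ E) (hS : 0 ≤ S) :
    ((1 + 2 * (2 * (8 * c * r) + S * r)) * ((d + 2) * (2 * d * D) * ((r + 1) * A) + (d + 1) * B) +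
      (2 * (8 * c * r) + S * r) * E) * D ^ 6 ≤
    ((33 * c + 2 * S) * (6 * c ^ 10 + 2 * c) * c ^ 48) * s ^ 118 * A +
      ((16 * c + S) * c ^ 48) * s ^ 97 * E := by
  have hs0 : 0 ≤ s := by linarith
  have hc0 : 0 ≤ c := by linarith
  have hs2 : 1 ≤ s ^ 2 := one_le_pow₀ hs
  have hcs : 1 ≤ c * s := by nlinarith
  have e1 : 1 + 2 * (2 * (8 * c * r) + S * r) ≤ (33 * c + 2 * S) * s := by
    have h1 : c * r ≤ c * s := mul_le_mul_of_nonneg_left (by linarith) hc0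
    have h2 : S * r ≤ S * s := mul_le_mul_of_nonneg_left (by linarith) hS
    nlinarith
  have hcs2 : 1 ≤ c * s ^ 2 := by nlinarith
  have e2 : d + 2 ≤ 3 * c * s ^ 2 := by nlinarith
  have e2' : d + 1 ≤ 2 * c * s ^ 2 := by nlinarith
  have e3 : D ^ 6 ≤ c ^ 48 * s ^ 96 := by
    calc D ^ 6 ≤ (c ^ 8 * s ^ 16) ^ 6 := pow_le_pow_left₀ hD0 hD 6
      _ = c ^ 48 * s ^ 96 := by ring
  have e4 : 2 * d * D ≤ 2 * c ^ 9 * s ^ 18 := by
    calc 2 * d * D ≤ 2 * (c * s ^ 2) * (c ^ 8 * s ^ 16) := by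
          apply mul_le_mul _ hD hD0 (by positivity)
          linarith
      _ = 2 * c ^ 9 * s ^ 18 := by ring
  have e5 : (d + 2) * (2 * d * D) * ((r + 1) * A) ≤ 6 * c ^ 10 * s ^ 21 * A := by
    calc (d + 2) * (2 * d * D) * ((r + 1) * A)
        ≤ (3 * c * s ^ 2) * (2 * c ^ 9 * s ^ 18) * (s * A) := by
          rw [hr]
          apply mul_le_mul_of_nonneg_right _ (by positivity)
          exact mul_le_mul e2 e4 (by positivity) (by positivity)
      _ = 6 * c ^ 10 * s ^ 21 * A := by ring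
  have hs1 : s ^ 2 ≤ s ^ 21 := pow_le_pow_right₀ hs (by norm_num)
  have e6 : (d + 1) * B ≤ 2 * c * s ^ 21 * A := by
    calc (d + 1) * B ≤ (2 * c * s ^ 2) * A := mul_le_mul e2' hBA hB (by positivity)
      _ ≤ 2 * c * s ^ 21 * A := by
          apply mul_le_mul_of_nonneg_right _ hA
          exact mul_le_mul_of_nonneg_left hs1 (by positivity)
  have e7 : (1 + 2 * (2 * (8 * c * r) + S * r)) *
      ((d + 2) * (2 * d * D) * ((r + 1) * A) + (d + 1) * B) ≤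
      (33 * c + 2 * S) * s * (6 * c ^ 10 * s ^ 21 * A + 2 * c * s ^ 21 * A) := by
    apply mul_le_mul e1 (add_le_add e5 e6) (by positivity) (by positivity)
  have e8 : (2 * (8 * c * r) + S * r) * E ≤ (16 * c + S) * s * E := by
    apply mul_le_mul_of_nonneg_right _ hE
    have h1 : (16 * c + S) * r ≤ (16 * c + S) * s :=
      mul_le_mul_of_nonneg_left (by linarith) (by positivity)
    nlinarith
  calc ((1 + 2 * (2 * (8 * c * r) + S * r)) *
      ((d + 2) * (2 * d * D) * ((r + 1) * A) + (d + 1) * B) +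
      (2 * (8 * c * r) + S * r) * E) * D ^ 6
      ≤ ((33 * c + 2 * S) * s * (6 * c ^ 10 * s ^ 21 * A + 2 * c * s ^ 21 * A) + (16 * c + S) * s * E) *
        (c ^ 48 * s ^ 96) := by
        apply mul_le_mul (add_le_add e7 e8) e3 (by positivity) (by positivity)
    _ = ((33 * c + 2 * S) * (6 * c ^ 10 + 2 * c) * c ^ 48) * s ^ 118 * A +
      ((16 * c + S) * c ^ 48) * s ^ 97 * E := by ring

/-- the failure probability of the local lemma is at most `D ^ (-6)` for `d` large, `D ≤ d ^ 8` -/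
theorem final_boundM (κ S q : ℕ) (hκ : 1 ≤ κ) (hq : 1 ≤ q) : ∃ d0 : ℕ, ∀ d D r : ℕ,
    r = Nat.sqrt (d / (32 * κ)) → d0 ≤ d → D ≤ d ^ 8 →
    ((1 + 2 * (2 * ((256 * κ * r : ℕ) : ℝ) + S * r)) *
        ((d + 2) * (2 * d * D) * (((r : ℝ) + 1) / 2 ^ r) +
          (d + 1) / 2 ^ (256 * κ * r)) +
      (2 * ((256 * κ * r : ℕ) : ℝ) + S * r) * (3 / 4) ^ (512 * r / q)) *
        (D : ℝ) ^ 6 ≤ 1 := by
  set c : ℝ := 32 * κ with hc
  have hκR : (1 : ℝ) ≤ κ := by exact_mod_cast hκ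
  have hc1 : 1 ≤ c := by rw [hc]; linarith
  have hc0 : 0 ≤ c := by linarith
  obtain ⟨R1, hR1⟩ := small_ev 118 ((33 * c + 2 * S) * (6 * c ^ 10 + 2 * c) * c ^ 48) (1 / 2) (by positivity)
    (by norm_num) (by norm_num)
  obtain ⟨R3, hR3⟩ := small_ev 97 (((16 * c + S) * c ^ 48) * (q : ℝ) ^ 97) (3 / 4) (by positivity)
    (by norm_num) (by norm_num)
  refine ⟨32 * κ * (R1 + q * R3) ^ 2, fun d D r hr hd0 hD => ?_⟩
  have hk0 : 0 < 32 * κ := by omega
  have hrR : R1 + q * R3 ≤ r := by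
    rw [hr, Nat.le_sqrt']
    rw [Nat.le_div_iff_mul_le hk0]
    linarith
  have hdr : d < 32 * κ * (r + 1) ^ 2 := by
    have h1 : d / (32 * κ) < (r + 1) ^ 2 := by
      rw [hr]; exact Nat.lt_succ_sqrt' _
    have h2 := (Nat.div_lt_iff_lt_mul hk0).1 h1
    linarith
  have hdrR : (d : ℝ) ≤ c * ((r : ℝ) + 1) ^ 2 := by
    rw [hc]; exact_mod_cast hdr.le
  have hDR : (D : ℝ) ≤ c ^ 8 * ((r : ℝ) + 1) ^ 16 := by
    have h1 : (D : ℝ) ≤ (d : ℝ) ^ 8 := by exact_mod_cast hD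
    calc (D : ℝ) ≤ (d : ℝ) ^ 8 := h1
      _ ≤ (c * ((r : ℝ) + 1) ^ 2) ^ 8 := pow_le_pow_left₀ (by positivity) hdrR 8
      _ = c ^ 8 * ((r : ℝ) + 1) ^ 16 := by ring
  have hBA : (1 / 2 : ℝ) ^ (256 * κ * r) ≤ (1 / 2) ^ r :=
    pow_le_pow_of_le_one (by norm_num) (by norm_num)
      (Nat.le_mul_of_pos_left r (by omega))
  have hb := bd c ((r : ℝ) + 1) d D ((1 / 2) ^ r) ((1 / 2) ^ (256 * κ * r))
    ((3 / 4) ^ (512 * r / q)) S r hc1
    (by have : (0 : ℝ) ≤ r := by positivity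
        linarith) rfl (by positivity) (by positivity) hdrR (by positivity) hDR (by positivity)
    (by positivity) hBA (by positivity) (by positivity)
  have t1 := hR1 r (by omega)
  have hn : R3 ≤ r / q := by
    rw [Nat.le_div_iff_mul_le (by omega)]
    nlinarith
  have t3 := hR3 (r / q) hn
  have t3' : ((16 * c + S) * c ^ 48) * ((r : ℝ) + 1) ^ 97 * (3 / 4) ^ (512 * r / q) ≤ 1 / 2 := by
    refine le_trans ?_ t3
    have hsq : (r : ℝ) + 1 ≤ (q : ℝ) * (((r / q : ℕ) : ℝ) + 1) := by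
      have h1 : r < q * (r / q + 1) := Nat.lt_mul_div_succ r (by omega)
      exact_mod_cast h1
    have hp : (3 / 4 : ℝ) ^ (512 * r / q) ≤ (3 / 4) ^ (r / q) :=
      pow_le_pow_of_le_one (by norm_num) (by norm_num) (Nat.div_le_div_right (by omega))
    calc ((16 * c + S) * c ^ 48) * ((r : ℝ) + 1) ^ 97 * (3 / 4) ^ (512 * r / q)
        ≤ ((16 * c + S) * c ^ 48) * ((q : ℝ) * (((r / q : ℕ) : ℝ) + 1)) ^ 97 *
            (3 / 4) ^ (r / q) := by
          apply mul_le_mul _ hp (by positivity) (by positivity)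
          apply mul_le_mul_of_nonneg_left _ (by positivity)
          exact pow_le_pow_left₀ (by positivity) hsq 97
      _ = ((16 * c + S) * c ^ 48) * (q : ℝ) ^ 97 * (((r / q : ℕ) : ℝ) + 1) ^ 97 *
            (3 / 4) ^ (r / q) := by
          rw [mul_pow]; ring
  have hconv1 : ((r : ℝ) + 1) / 2 ^ r = ((r : ℝ) + 1) * (1 / 2) ^ r := by
    rw [one_div, inv_pow, div_eq_mul_inv]
  have hconv2 : ((d : ℝ) + 1) / 2 ^ (256 * κ * r) = ((d : ℝ) + 1) * (1 / 2) ^ (256 * κ * r) := by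
    rw [one_div, inv_pow, div_eq_mul_inv]
  have hconv3 : ((256 * κ * r : ℕ) : ℝ) = 8 * c * r := by rw [hc]; push_cast; ring
  rw [hconv1, hconv2, hconv3]
  linarith

end Pool.Agent.Helper4.CP
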